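import Pool.Agent.HIK.Stmts

set_option autoImplicit false

namespace Pool.Agent.HIK.H59

open Pool.Agent.HIK Pool.Agent.Helper78_MT

universe u

theorem map_relIndex {A B : Type*} [Group A] [Group B] (f : A →* B) (H : Subgroup A)
    (hH : H.FiniteIndex) (K : Subgroup B) (hK : K ≤ f.range) : (H.map f).relIndex K ≠ 0 := by
  intro h
  have h1 := Subgroup.relIndex_eq_zero_of_le_right hK h
  have h2 : f.range = Subgroup.map f ⊤ := MonoidHom.range_eq_map f
  rw [h2, Subgroup.relIndex_map_map, top_sup_eq, Subgroup.relIndex_top_right] at h1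
  have h3 : (H ⊔ f.ker).FiniteIndex := Subgroup.finiteIndex_of_le (le_sup_left : H ≤ H ⊔ f.ker)
  exact h3.index_ne_zero h1

theorem zclosure_mono {n : Type*} [Fintype n] [DecidableEq n] (F : Type*) {L : Type*} (K : Type*)
    [Field F] [Field L] [Field K] [Algebra F L] [Algebra F K] {S T : Set (Matrix n n L)}
    (h : S ⊆ T) : zclosure F K S ⊆ zclosure F K T :=
  fun M hM => ⟨hM.1, fun p hp => hM.2 p fun s hs => hp s (h hs)⟩

theorem mon : MonStmt.{u} := by
  intro n _ _ F _ G G' _ _ ρ ρ' hr hΓ K _ _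
  obtain ⟨Γ, hΓ, hΓr⟩ := hΓ
  apply Set.Subset.antisymm
  · intro M hM Γ₁ hΓ₁
    have hfi : ((Γ₁.map ρ).comap ρ').FiniteIndex := by
      rw [Subgroup.finiteIndex_iff, Subgroup.index_comap]
      refine map_relIndex ρ Γ₁ hΓ₁ _ ?_
      rintro _ ⟨g, rfl⟩
      exact hr ⟨g, rfl⟩
    refine zclosure_mono F K ?_ (hM _ hfi)
    rintro X ⟨γ, hγ, rfl⟩
    obtain ⟨g, hg, h1⟩ := hγ
    exact ⟨g, hg, by rw [h1]⟩
  · intro M hM Γ' hΓ'
    have hfi : (Γ ⊓ (Γ'.map ρ').comap ρ).FiniteIndex := by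
      rw [Subgroup.finiteIndex_iff]
      have h1 : ((Γ'.map ρ').comap ρ).relIndex Γ ≠ 0 := by
        rw [Subgroup.relIndex_comap]
        refine map_relIndex ρ' Γ' hΓ' _ ?_
        rintro _ ⟨g, hg, rfl⟩
        obtain ⟨g', h2⟩ := hΓr ⟨g, hg, rfl⟩
        exact ⟨g', h2⟩
      have h2 : Γ.relIndex ⊤ ≠ 0 := by
        rw [Subgroup.relIndex_top_right]
        exact hΓ.index_ne_zero
      have h3 : (Γ ⊓ (Γ'.map ρ').comap ρ).relIndex Γ ≠ 0 := by
        rw [Subgroup.inf_relIndex_left]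
        exact h1
      rw [← Subgroup.relIndex_top_right]
      exact Subgroup.relIndex_ne_zero_trans h3 h2
    refine zclosure_mono F K ?_ (hM _ hfi)
    rintro X ⟨γ, hγ, rfl⟩
    obtain ⟨g, hg, h1⟩ := hγ.2
    exact ⟨g, hg, by rw [h1]⟩

end Pool.Agent.HIK.H59
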